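import Pool.Agent.Helper78.ZM.Final

/-!
MP_ccc3c9_an: in every `ℂ^n`, `n ≥ 2`, there is a plurisubharmonic function on the unit ball with
well-defined Monge–Ampère measure `c δ_0`, `c > 0`, whose Lelong number at `0` is zero.
-/

set_option autoImplicit false

open MeasureTheory Filter Topology
open scoped ContDiff Real ENNReal

namespace Pool.Agent.Results.MP_ccc3c9_an.ZeroMass

/-- `ℂ^n`, with coordinates `z 0, …, z (n-1)`; `volume` is Lebesgue measure. -/
abbrev Cn (n : ℕ) := Fin n → ℂ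

/-- the Euclidean norm `‖z‖ = (∑ |z_j|²)^{1/2}` on `ℂ^n` -/
noncomputable def nrm {n : ℕ} (z : Cn n) : ℝ := Real.sqrt (∑ j, ‖z j‖ ^ 2)

/-- the open unit ball of `ℂ^n` -/
def uball (n : ℕ) : Set (Cn n) := {z | nrm z < 1}

/-- The mean `(1/2π) ∫_0^{2π} u(θ) dθ` (in `[-∞, ∞]`) of an upper semicontinuous function `u`:
the infimum of the means of its continuous majorants. -/
noncomputable def mean (u : ℝ → EReal) : EReal :=
  ⨅ (g : ℝ → ℝ) (_ : Continuous g) (_ : ∀ θ, u θ ≤ (g θ : EReal)),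
    (((2 * π)⁻¹ * ∫ θ in (0 : ℝ)..(2 * π), g θ : ℝ) : EReal)

/-- `φ` is plurisubharmonic on the open set `U`: it takes values in `[-∞, ∞)`, is upper
semicontinuous and not identically `-∞`, and for every closed complex disc `{a + ζ v : |ζ| ≤ 1}`
in `U` the value at the centre is at most the mean over the boundary circle. -/
def IsPSH {n : ℕ} (φ : Cn n → EReal) (U : Set (Cn n)) : Prop :=
  (∀ x ∈ U, φ x ≠ ⊤) ∧ UpperSemicontinuousOn φ U ∧ (∃ x ∈ U, φ x ≠ ⊥) ∧
    ∀ a v : Cn n, (∀ ζ : ℂ, ‖ζ‖ ≤ 1 → a + ζ • v ∈ U) →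
      φ a ≤ mean (fun θ : ℝ => φ (a + Complex.exp (θ * Complex.I) • v))

/-- the second directional derivative `∂_u ∂_v f (x)` -/
noncomputable def D2 {n : ℕ} (f : Cn n → ℝ) (x u v : Cn n) : ℝ :=
  fderiv ℝ (fun y => fderiv ℝ f y v) x u

/-- the complex Hessian `∂²f / ∂z_j ∂z̄_k (x)` of a real valued function -/
noncomputable def levi {n : ℕ} (f : Cn n → ℝ) (x : Cn n) : Matrix (Fin n) (Fin n) ℂ :=
  Matrix.of fun j k =>
    (1 / 4 : ℂ) *
      (((D2 f x (Pi.single j 1) (Pi.single k 1)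
          + D2 f x (Pi.single j Complex.I) (Pi.single k Complex.I) : ℝ) : ℂ)
        + Complex.I * ((D2 f x (Pi.single j 1) (Pi.single k Complex.I)
          - D2 f x (Pi.single j Complex.I) (Pi.single k 1) : ℝ) : ℂ))

/-- The density of `(dd^c f)^n` with respect to Lebesgue measure, for smooth `f`; with
`dd^c ‖z‖² = ∑ (i/π) dz_j ∧ dz̄_j` it is `n! (2/π)^n det (∂²f / ∂z_j ∂z̄_k)`. -/
noncomputable def maDensity {n : ℕ} (f : Cn n → ℝ) (x : Cn n) : ℝ :=
  (n.factorial : ℝ) * (2 / π) ^ n * (levi f x).det.re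

/-- `μ` is the complex Monge–Ampère measure `(dd^c φ)^n` of `φ` on the unit ball: it is finite on
compact subsets, and for every relatively compact subdomain `V` and every sequence `f_j` of smooth
plurisubharmonic functions decreasing to `φ` on `V`, the measures `(dd^c f_j)^n` converge weakly
to `μ` on `V`. -/
def IsMAMeasure {n : ℕ} (φ : Cn n → EReal) (μ : Measure (Cn n)) : Prop :=
  (∀ K : Set (Cn n), K ⊆ uball n → IsCompact K → μ K < ⊤) ∧
    ∀ V : Set (Cn n), IsOpen V → IsConnected V → closure V ⊆ uball n →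
      ∀ f : ℕ → Cn n → ℝ,
        (∀ j, ContDiffOn ℝ ∞ (f j) V) →
        (∀ j, IsPSH (fun x => (f j x : EReal)) V) →
        (∀ j, ∀ x ∈ V, f (j + 1) x ≤ f j x) →
        (∀ x ∈ V, Tendsto (fun j => (f j x : EReal)) atTop (𝓝 (φ x))) →
        ∀ χ : Cn n → ℝ, Continuous χ → HasCompactSupport χ → tsupport χ ⊆ V →
          Tendsto (fun j => ∫ x, χ x * maDensity (f j) x) atTop (𝓝 (∫ x, χ x ∂μ))

/-- the Lelong number `liminf_{z → 0} φ(z) / log ‖z‖` at `0` -/
noncomputable def lelong {n : ℕ} (φ : Cn n → EReal) : EReal :=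
  liminf (fun z => φ z / ((Real.log (nrm z) : ℝ) : EReal)) (𝓝[≠] 0)

/-- For every `n ≥ 2` there is a plurisubharmonic function `φ` on the unit ball of `ℂ^n`, with
values in `ℝ` and continuous off `0`, whose Monge–Ampère measure `μ` is well defined, finite,
concentrated at `0` and nonzero, and whose Lelong number at `0` is `0`. Moreover `φ` is the limit
of a decreasing sequence of smooth plurisubharmonic functions on the ball. -/
theorem result (n : ℕ) (hn : 2 ≤ n) :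
    ∃ φ : Cn n → EReal, IsPSH φ (uball n) ∧
      (∃ μ : Measure (Cn n), IsMAMeasure φ μ ∧ 0 < μ {0} ∧ μ {0} < ⊤ ∧ μ {0}ᶜ = 0) ∧
      lelong φ = 0 ∧ φ 0 = ⊥ ∧
      (∃ g : Cn n → ℝ, ContinuousOn g {x | 0 < nrm x ∧ nrm x < 1} ∧
        ∀ x, 0 < nrm x → nrm x < 1 → φ x = (g x : EReal)) ∧
      ∃ f : ℕ → Cn n → ℝ, (∀ j, ContDiff ℝ ∞ (f j)) ∧
        (∀ j, IsPSH (fun x => (f j x : EReal)) (uball n)) ∧
        (∀ j, ∀ x ∈ uball n, f (j + 1) x ≤ f j x) ∧
        ∀ x ∈ uball n, Tendsto (fun j => (f j x : EReal)) atTop (𝓝 (φ x)) := by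
  obtain ⟨m, rfl⟩ := Nat.exists_eq_add_of_le' hn
  obtain ⟨φ, hpsh, ⟨c, hc0, hc1, hma⟩, hlel, hbot, hg, hf⟩ := Pool.Agent.Helper78.ZM.mainAll m
  refine ⟨φ, hpsh, ⟨c • Measure.dirac 0, hma, ?_, ?_, ?_⟩, hlel, hbot, hg, hf⟩
  · rw [Measure.smul_apply]
    simpa using hc0
  · rw [Measure.smul_apply]
    simpa using hc1
  · rw [Measure.smul_apply]
    simp

end Pool.Agent.Results.MP_ccc3c9_an.ZeroMass
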